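import Pool.Agent.N789.POT.Block

set_option autoImplicit false

namespace Pool.Agent.N789.Shelf.RealPermanentOnTop

open Matrix Equiv

/-- The Schur power matrix of an `n × n` real matrix `A`: rows and columns are indexed by the
permutations `σ, τ` of the index set, with entry `∏ i, A (σ i) (τ i)`. -/
def schurPower {n : ℕ} (A : Matrix (Fin n) (Fin n) ℝ) :
    Matrix (Perm (Fin n)) (Perm (Fin n)) ℝ :=
  Matrix.of fun σ τ => ∏ i, A (σ i) (τ i)

/-- The permanent-on-top property fails for real positive definite matrices of every size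
`n ≥ 8` (in particular for `8 ≤ n ≤ 15`): the Schur power matrix has an eigenvalue larger than the
permanent. -/
theorem result : ∀ n : ℕ, 8 ≤ n → ∃ A : Matrix (Fin n) (Fin n) ℝ, A.PosDef ∧
    ∃ μ : ℝ, A.permanent < μ ∧
      ∃ v : Perm (Fin n) → ℝ, v ≠ 0 ∧ schurPower A *ᵥ v = μ • v := by
  intro n hn
  obtain ⟨A, hA, y, hy⟩ := Pool.Agent.N789.POT.exists_viol n hn
  refine ⟨A, hA, Pool.Agent.N789.POT.exists_eigenvalue_gt (schurPower A) ?_ A.permanent y ?_⟩
  · ext σ τ
    simp only [schurPower, Matrix.conjTranspose_apply, Matrix.of_apply, star_trivial]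
    refine Finset.prod_congr rfl fun i _ => ?_
    have := congrFun (congrFun hA.1 (σ i)) (τ i)
    rw [Matrix.conjTranspose_apply, star_trivial] at this
    exact this
  · refine lt_of_lt_of_eq hy ?_
    simp only [dotProduct, Matrix.mulVec, schurPower, Matrix.of_apply, Finset.mul_sum]
    refine Finset.sum_congr rfl fun σ _ => Finset.sum_congr rfl fun τ _ => ?_
    ring

end Pool.Agent.N789.Shelf.RealPermanentOnTop
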